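import Pool.Agent.Lib.H98Z.S4

/-!
# H50TW, file A1: doubled elements of a complex of plane sets

`twa`: two families `p z`, `q z` (`z ∈ Z`) of elements which cross the same other elements, `R d b` := `p d` crosses
`q b` (a strict order). If no `z` without `q`-copy is below a `z'` without `p`-copy, the complex is acyclic as soon
as the complexes with one copy of each `z` (and no crossing between the copies) are.
-/

set_option autoImplicit false
set_option linter.unusedSectionVars false

namespace H50TW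

open Finset H98P H98Z

section

variable {E : Type*} [Fintype E] [DecidableEq E]

/-- a cone -/
theorem acy_cone {cross : E → E → Prop} (hsymm : ∀ e f, cross e f → cross f e) {S : Finset E} {e : E}
    (he : e ∈ S) (h : ∀ f ∈ S, ¬ cross e f) : Acy cross S := by
  intro z hz hb
  refine acyclic hsymm (singleton_subset_iff.2 he) ?_ (fun F hF _ => ⟨e, mem_singleton_self e, fun f hf => ?_⟩) hz hb
  · intro a ha b hb'
    rw [mem_singleton] at ha hb'
    subst ha hb'
    exact h _ he
  · exact h f (mem_sdiff.1 (hF hf)).1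

/-- only the crossings inside `S` matter -/
theorem acy_congr {cross cross' : E → E → Prop} {S : Finset E} (h : ∀ e ∈ S, ∀ f ∈ S, (cross e f ↔ cross' e f))
    (hA : Acy cross S) : Acy cross' S := by
  have hP : ∀ s, s ⊆ S → (Plane cross s ↔ Plane cross' s) := by
    intro s hs
    constructor
    · intro h1 e he f hf h2
      exact h1 e he f hf ((h e (hs he) f (hs hf)).2 h2)
    · intro h1 e he f hf h2
      exact h1 e he f hf ((h e (hs he) f (hs hf)).1 h2)
  intro z hz hb
  obtain ⟨c, hc1, hc2⟩ := hA z (fun s hs => ⟨(hz s hs).1, (hP s (hz s hs).1).2 (hz s hs).2⟩) hb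
  exact ⟨c, fun s hs => ⟨(hc1 s hs).1, (hP s (hc1 s hs).1).1 (hc1 s hs).2⟩, hc2⟩

/-- transport along an injective map -/
theorem acy_map {cross : E → E → Prop} {S : Finset E} (f : E ↪ E) (h : Acy cross (S.map f))
    (hc : ∀ e ∈ S, ∀ e' ∈ S, (cross (f e) (f e') ↔ cross e e')) : Acy cross S :=
  acy_congr hc (acy_transport f h)

/-- removing one element -/
theorem acy_insert {cross : E → E → Prop} (hsymm : ∀ e f, cross e f → cross f e) {S : Finset E} {e : E}
    (he : e ∉ S) (hS : Acy cross S) (hl : Acy cross (Miss cross S {e})) : Acy cross (insert e S) := by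
  have h1 : insert e S = S ∪ {e} := by
    ext x
    simp only [mem_insert, mem_union, mem_singleton]
    tauto
  rw [h1]
  refine split_mpr hsymm (disjoint_singleton_right.2 he) (fun Y hY hYn _ => ?_) hS
  have h2 : Y = {e} := by
    obtain ⟨y, hy⟩ := hYn
    have h3 := mem_singleton.1 (hY hy)
    subst h3
    exact subset_antisymm hY (singleton_subset_iff.2 hy)
  rw [h2]
  exact hl

end

section

variable {E ι : Type*} [Fintype E] [DecidableEq E] [DecidableEq ι]

/-- doubled elements -/
structure Dbl (cross : E → E → Prop) (N : Finset E) (Z : Finset ι) (p q : ι → E) (R : ι → ι → Prop) : Prop where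
  symm : ∀ e f, cross e f → cross f e
  pN : ∀ z ∈ Z, p z ∉ N
  qN : ∀ z ∈ Z, q z ∉ N
  pq : ∀ z ∈ Z, ∀ w ∈ Z, p z ≠ q w
  pinj : ∀ z ∈ Z, ∀ w ∈ Z, p z = p w → z = w
  qinj : ∀ z ∈ Z, ∀ w ∈ Z, q z = q w → z = w
  pp : ∀ z ∈ Z, ∀ w ∈ Z, ¬ cross (p z) (p w)
  qq : ∀ z ∈ Z, ∀ w ∈ Z, ¬ cross (q z) (q w)
  same : ∀ z ∈ Z, ∀ e ∈ N, (cross (p z) e ↔ cross (q z) e)
  rel : ∀ d ∈ Z, ∀ b ∈ Z, (cross (p d) (q b) ↔ R d b)
  irr : ∀ z, ¬ R z z
  trans : ∀ a b c, R a b → R b c → R a c

/-- the complex with the copies `p z`, `z ∈ P`, and `q z`, `z ∈ Q` -/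
def cpx (N : Finset E) (p q : ι → E) (P Q : Finset ι) : Finset E := N ∪ P.image p ∪ Q.image q

theorem mem_cpx {N : Finset E} {p q : ι → E} {P Q : Finset ι} {e : E} :
    e ∈ cpx N p q P Q ↔ e ∈ N ∨ (∃ z ∈ P, p z = e) ∨ ∃ z ∈ Q, q z = e := by
  unfold cpx
  rw [mem_union, mem_union, mem_image, mem_image, or_assoc]

/-- a maximal element of a finite set above a given one -/
theorem exists_top {R : ι → ι → Prop} (irr : ∀ z, ¬ R z z) (trans : ∀ a b c, R a b → R b c → R a c)
    {Q : Finset ι} {z0 : ι} (h0 : z0 ∈ Q) : ∃ z ∈ Q, (z = z0 ∨ R z0 z) ∧ ∀ b ∈ Q, ¬ R z b := by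
  classical
  have key : ∀ n, ∀ z ∈ Q, (z = z0 ∨ R z0 z) → (Q.filter fun b => R z b).card = n →
      ∃ z ∈ Q, (z = z0 ∨ R z0 z) ∧ ∀ b ∈ Q, ¬ R z b := by
    intro n
    induction n using Nat.strong_induction_on with
    | _ n ih =>
      intro z hz h1 hn
      by_cases h2 : ∀ b ∈ Q, ¬ R z b
      · exact ⟨z, hz, h1, h2⟩
      · obtain ⟨b, hb, hzb⟩ : ∃ b ∈ Q, R z b := by
          by_contra h3
          exact h2 fun b hb h4 => h3 ⟨b, hb, h4⟩
        refine ih _ ?_ b hb (Or.inr ?_) rfl
        · rw [← hn]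
          apply card_lt_card
          refine ⟨fun c hc => ?_, fun h3 => ?_⟩
          · rw [mem_filter] at hc ⊢
            exact ⟨hc.1, trans _ _ _ hzb hc.2⟩
          · have h4 := h3 (mem_filter.2 ⟨hb, hzb⟩)
            exact irr b (mem_filter.1 h4).2
        · rcases h1 with rfl | h1
          · exact hzb
          · exact trans _ _ _ h1 hzb
  exact key _ z0 h0 (Or.inl rfl) rfl

theorem Dbl.acy {cross : E → E → Prop} {N : Finset E} {Z : Finset ι} {p q : ι → E} {R : ι → ι → Prop}
    (h : Dbl cross N Z p q R)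
    (hH : ∀ A ⊆ Z, (∀ a ∈ A, ∀ b ∈ Z \ A, ¬ R a b) → Acy cross (cpx N p q A (Z \ A))) :
    ∀ (n : ℕ) (P Q : Finset ι), (P ∩ Q).card = n → P ∪ Q = Z →
      (∀ a ∈ Z, a ∉ Q → ∀ b ∈ Z, b ∉ P → ¬ R a b) → Acy cross (cpx N p q P Q) := by
  intro n
  induction n with
  | zero =>
    intro P Q hn hPQ hR
    have hd : Disjoint P Q := by
      rw [disjoint_iff_inter_eq_empty]
      exact card_eq_zero.1 hn
    have hQ : Z \ P = Q := by
      rw [← hPQ]
      ext z
      rw [mem_sdiff, mem_union]
      constructor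
      · rintro ⟨h1 | h1, h2⟩
        · exact absurd h1 h2
        · exact h1
      · exact fun h1 => ⟨Or.inr h1, fun h2 => disjoint_left.1 hd h2 h1⟩
    have hPZ : P ⊆ Z := by rw [← hPQ]; exact subset_union_left
    have h1 := hH P hPZ (fun a ha b hb => hR a (hPZ ha) (fun h2 => disjoint_left.1 hd ha h2) b (mem_sdiff.1 hb).1
      (mem_sdiff.1 hb).2)
    rw [hQ] at h1
    exact h1
  | succ n ih =>
    intro P Q hn hPQ hR
    have hPZ : P ⊆ Z := by rw [← hPQ]; exact subset_union_left
    have hQZ : Q ⊆ Z := by rw [← hPQ]; exact subset_union_right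
    have hcov : ∀ z ∈ Z, z ∈ P ∨ z ∈ Q := fun z hz => by rw [← hPQ] at hz; exact mem_union.1 hz
    obtain ⟨z0, hz0⟩ := card_pos.1 (by omega : 0 < (P ∩ Q).card)
    rw [mem_inter] at hz0
    -- remove a doubled `q`-copy
    have stepq : ∀ z ∈ P, z ∈ Q → (∀ b ∈ Q, ¬ R z b) → Acy cross (cpx N p q P Q) := by
      intro z hzP hzQ htop
      have hins : cpx N p q P Q = insert (q z) (cpx N p q P (Q.erase z)) := by
        ext e
        rw [mem_insert, mem_cpx, mem_cpx]
        constructor
        · rintro (h1 | h1 | ⟨w, hw, rfl⟩)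
          · exact Or.inr (Or.inl h1)
          · exact Or.inr (Or.inr (Or.inl h1))
          · by_cases hwz : w = z
            · exact Or.inl (by rw [hwz])
            · exact Or.inr (Or.inr (Or.inr ⟨w, mem_erase.2 ⟨hwz, hw⟩, rfl⟩))
        · rintro (rfl | h1 | h1 | ⟨w, hw, rfl⟩)
          · exact Or.inr (Or.inr ⟨z, hzQ, rfl⟩)
          · exact Or.inl h1
          · exact Or.inr (Or.inl h1)
          · exact Or.inr (Or.inr ⟨w, (mem_erase.1 hw).2, rfl⟩)
      rw [hins]
      refine acy_insert h.symm ?_ ?_ ?_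
      · intro h1
        rcases mem_cpx.1 h1 with h1 | ⟨w, hw, h1⟩ | ⟨w, hw, h1⟩
        · exact h.qN z (hQZ hzQ) h1
        · exact h.pq w (hPZ hw) z (hQZ hzQ) h1
        · have h2 := h.qinj w (hQZ (mem_erase.1 hw).2) z (hQZ hzQ) h1
          exact (mem_erase.1 hw).1 h2
      · refine ih P (Q.erase z) ?_ ?_ ?_
        · have h1 : P ∩ Q.erase z = (P ∩ Q).erase z := by
            ext w
            simp only [mem_inter, mem_erase]
            tauto
          rw [h1, card_erase_of_mem (mem_inter.2 ⟨hzP, hzQ⟩), hn]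
          rfl
        · rw [← hPQ]
          ext w
          simp only [mem_union, mem_erase]
          constructor
          · rintro (h1 | h1)
            · exact Or.inl h1
            · exact Or.inr h1.2
          · rintro (h1 | h1)
            · exact Or.inl h1
            · by_cases hwz : w = z
              · exact Or.inl (hwz ▸ hzP)
              · exact Or.inr ⟨hwz, h1⟩
        · intro a ha haQ b hb hbP hab
          by_cases haz : a = z
          · subst haz
            have hbQ : b ∈ Q := (hcov b hb).resolve_left hbP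
            exact htop b hbQ hab
          · exact hR a ha (fun h1 => haQ (mem_erase.2 ⟨haz, h1⟩)) b hb hbP hab
      · refine acy_cone h.symm (e := p z) ?_ ?_
        · rw [mem_miss]
          refine ⟨mem_cpx.2 (Or.inr (Or.inl ⟨z, hzP, rfl⟩)), fun y hy => ?_⟩
          rw [mem_singleton] at hy
          subst hy
          rw [h.rel z (hPZ hzP) z (hQZ hzQ)]
          exact h.irr z
        · intro f hf
          rw [mem_miss] at hf
          obtain ⟨hf1, hf2⟩ := hf
          have hf3 := hf2 (q z) (mem_singleton_self _)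
          rcases mem_cpx.1 hf1 with h1 | ⟨w, hw, rfl⟩ | ⟨w, hw, rfl⟩
          · intro h2
            exact hf3 (h.symm _ _ ((h.same z (hPZ hzP) f h1).1 h2))
          · exact h.pp z (hPZ hzP) w (hPZ hw)
          · rw [h.rel z (hPZ hzP) w (hQZ (mem_erase.1 hw).2)]
            exact htop w (mem_erase.1 hw).2
    -- remove a doubled `p`-copy
    have stepp : ∀ z ∈ P, z ∈ Q → (∀ b ∈ P, ¬ R b z) → Acy cross (cpx N p q P Q) := by
      intro z hzP hzQ hbot
      have hins : cpx N p q P Q = insert (p z) (cpx N p q (P.erase z) Q) := by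
        ext e
        rw [mem_insert, mem_cpx, mem_cpx]
        constructor
        · rintro (h1 | ⟨w, hw, rfl⟩ | h1)
          · exact Or.inr (Or.inl h1)
          · by_cases hwz : w = z
            · exact Or.inl (by rw [hwz])
            · exact Or.inr (Or.inr (Or.inl ⟨w, mem_erase.2 ⟨hwz, hw⟩, rfl⟩))
          · exact Or.inr (Or.inr (Or.inr h1))
        · rintro (rfl | h1 | ⟨w, hw, rfl⟩ | h1)
          · exact Or.inr (Or.inl ⟨z, hzP, rfl⟩)
          · exact Or.inl h1
          · exact Or.inr (Or.inl ⟨w, (mem_erase.1 hw).2, rfl⟩)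
          · exact Or.inr (Or.inr h1)
      rw [hins]
      refine acy_insert h.symm ?_ ?_ ?_
      · intro h1
        rcases mem_cpx.1 h1 with h1 | ⟨w, hw, h1⟩ | ⟨w, hw, h1⟩
        · exact h.pN z (hPZ hzP) h1
        · have h2 := h.pinj w (hPZ (mem_erase.1 hw).2) z (hPZ hzP) h1
          exact (mem_erase.1 hw).1 h2
        · exact h.pq z (hPZ hzP) w (hQZ hw) h1.symm
      · refine ih (P.erase z) Q ?_ ?_ ?_
        · have h1 : P.erase z ∩ Q = (P ∩ Q).erase z := by
            ext w
            simp only [mem_inter, mem_erase]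
            tauto
          rw [h1, card_erase_of_mem (mem_inter.2 ⟨hzP, hzQ⟩), hn]
          rfl
        · rw [← hPQ]
          ext w
          simp only [mem_union, mem_erase]
          constructor
          · rintro (h1 | h1)
            · exact Or.inl h1.2
            · exact Or.inr h1
          · rintro (h1 | h1)
            · by_cases hwz : w = z
              · exact Or.inr (hwz ▸ hzQ)
              · exact Or.inl ⟨hwz, h1⟩
            · exact Or.inr h1
        · intro a ha haQ b hb hbP hab
          by_cases hbz : b = z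
          · subst hbz
            have haP : a ∈ P := (hcov a ha).resolve_right haQ
            exact hbot a haP hab
          · exact hR a ha haQ b hb (fun h1 => hbP (mem_erase.2 ⟨hbz, h1⟩)) hab
      · refine acy_cone h.symm (e := q z) ?_ ?_
        · rw [mem_miss]
          refine ⟨mem_cpx.2 (Or.inr (Or.inr ⟨z, hzQ, rfl⟩)), fun y hy => ?_⟩
          rw [mem_singleton] at hy
          subst hy
          intro h1
          exact h.irr z ((h.rel z (hPZ hzP) z (hQZ hzQ)).1 (h.symm _ _ h1))
        · intro f hf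
          rw [mem_miss] at hf
          obtain ⟨hf1, hf2⟩ := hf
          have hf3 := hf2 (p z) (mem_singleton_self _)
          rcases mem_cpx.1 hf1 with h1 | ⟨w, hw, rfl⟩ | ⟨w, hw, rfl⟩
          · intro h2
            exact hf3 (h.symm _ _ ((h.same z (hPZ hzP) f h1).2 h2))
          · intro h2
            exact hbot w (mem_erase.1 hw).2 ((h.rel w (hPZ (mem_erase.1 hw).2) z (hQZ hzQ)).1 (h.symm _ _ h2))
          · exact h.qq z (hQZ hzQ) w (hQZ hw)
    -- the highest `q`-copy above `z0`, the lowest `p`-copy below `z0`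
    obtain ⟨z, hzQ, hz1, hz2⟩ := exists_top h.irr h.trans hz0.2
    by_cases hzP : z ∈ P
    · exact stepq z hzP hzQ hz2
    obtain ⟨y, hyP, hy1, hy2⟩ := exists_top (R := fun a b => R b a) h.irr
      (fun a b c h1 h2 => h.trans _ _ _ h2 h1) hz0.1
    by_cases hyQ : y ∈ Q
    · exact stepp y hyP hyQ hy2
    exfalso
    have hz3 : R z0 z := by
      rcases hz1 with h1 | h1
      · exact absurd (h1 ▸ hz0.1) hzP
      · exact h1
    have hy3 : R y z0 := by
      rcases hy1 with h1 | h1
      · exact absurd (h1 ▸ hz0.2) hyQ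
      · exact h1
    exact hR y (hPZ hyP) hyQ z (hQZ hzQ) hzP (h.trans _ _ _ hy3 hz3)

end

end H50TW
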