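import Pool.Agent.Lib.H50TW.A1
import Pool.Agent.Lib.H98M.M0

/-!
# H50TW, file A2: twins can be deleted

`Tw cross x y R`: `y` is a twin of `x`: `xy` crosses nothing, `yz` and `xz` cross the same edges without `x`, `y`, and
`xd` crosses `yb` iff `R d b`, a strict order. `N2 W F`: `F` is disconnected on `W` or has a cut vertex.
`Tw.acy`: if `Un (W - y) F` is acyclic for all plane `F` with `N2 (W - y) F`, then `Un W F` is acyclic for all plane
`F` with `N2 W F`. `Tw.acy1`: if `y` is in `W`, but not `x`, one can replace `y` by `x`.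
-/

set_option autoImplicit false
set_option linter.unusedSectionVars false

namespace H50TW

open Finset H98P H98Z H98M

variable {V : Type*} [Fintype V] [DecidableEq V]

/-- `y` is a twin of `x` -/
structure Tw (cross : Sym2 V → Sym2 V → Prop) (x y : V) (R : V → V → Prop) : Prop where
  symm : ∀ e f, cross e f → cross f e
  adj : ∀ a b c, ¬ cross s(a, b) s(a, c)
  ne : x ≠ y
  t0 : ∀ e, ¬ cross s(x, y) e
  t1 : ∀ z w w', z ≠ x → z ≠ y → w ≠ x → w ≠ y → w' ≠ x → w' ≠ y →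
    (cross s(y, z) s(w, w') ↔ cross s(x, z) s(w, w'))
  t2 : ∀ d b, d ≠ x → d ≠ y → b ≠ x → b ≠ y → (cross s(x, d) s(y, b) ↔ R d b)
  irr : ∀ z, ¬ R z z
  trans : ∀ a b c, R a b → R b c → R a c

/-- `F` is disconnected on `W` or has a cut vertex -/
def N2 (W : Finset V) (F : Finset (Sym2 V)) : Prop :=
  Disc W F ∨ ∃ b ∈ W, Disc (W.erase b) (F.filter fun e => b ∉ e)

/-- the contracted set has the same parts -/
theorem disc_drop {W : Finset V} {F G : Finset (Sym2 V)} {x y : V} (hxy : s(x, y) ∈ F) (hx : x ∈ W)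
    (hy : y ∈ W) (hne : x ≠ y) (h1 : ∀ u w, u ≠ x → w ≠ x → s(u, w) ∈ G → s(u, w) ∈ F)
    (h2 : ∀ w, s(x, w) ∈ G → s(x, w) ∈ F ∨ s(y, w) ∈ F) (hD : Disc W F) : Disc (W.erase y) G := by
  have key : ∀ C D : Finset V, C.Nonempty → D.Nonempty → Disjoint C D → C ∪ D = W →
      (∀ a ∈ C, ∀ b ∈ D, s(a, b) ∉ F) → x ∈ C → Disc (W.erase y) G := by
    intro C D _ hDn hCD hW hs hxC
    have hyC : y ∈ C := by
      rw [← hW] at hy
      rcases mem_union.1 hy with h | h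
      · exact h
      · exact absurd hxy (hs x hxC y h)
    refine ⟨C.erase y, D, ⟨x, mem_erase.2 ⟨hne, hxC⟩⟩, hDn, disjoint_of_subset_left (erase_subset _ _) hCD, ?_, ?_⟩
    · rw [← hW]
      ext z
      rw [mem_union, mem_erase, mem_erase, mem_union]
      constructor
      · rintro (⟨h3, h4⟩ | h3)
        · exact ⟨h3, Or.inl h4⟩
        · exact ⟨fun h4 => disjoint_left.1 hCD hyC (h4 ▸ h3), Or.inr h3⟩
      · rintro ⟨h3, h4 | h4⟩
        · exact Or.inl ⟨h3, h4⟩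
        · exact Or.inr h4
    · intro u hu w hw h3
      have huC := (mem_erase.1 hu).2
      have hwx : w ≠ x := fun h4 => disjoint_left.1 hCD hxC (h4 ▸ hw)
      by_cases hux : u = x
      · subst hux
        rcases h2 w h3 with h4 | h4
        · exact hs _ hxC _ hw h4
        · exact hs _ hyC _ hw h4
      · exact hs _ huC _ hw (h1 u w hux hwx h3)
  obtain ⟨C, D, hC, hDn, hCD, hW, hs⟩ := hD
  have hx' := hx
  rw [← hW] at hx'
  rcases mem_union.1 hx' with h | h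
  · exact key C D hC hDn hCD hW hs h
  · exact key D C hDn hC hCD.symm (by rw [union_comm, hW]) (fun a ha b hb h3 => hs b hb a ha (by rwa [Sym2.eq_swap])) h

/-- delete `x` and `y`: a part with a third vertex -/
theorem disc_two {W : Finset V} {F G : Finset (Sym2 V)} {u v : V}
    (huW : u ∈ W) (h1 : ∀ a b, a ≠ u → b ≠ u → a ≠ v → b ≠ v → s(a, b) ∈ G → s(a, b) ∈ F)
    (h2 : ∃ z ∈ W, z ≠ u ∧ s(u, z) ∈ F) (hD : Disc W F) :
    Disc (W.erase u) (G.filter fun e => v ∉ e) := by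
  have key : ∀ C D : Finset V, C.Nonempty → D.Nonempty → Disjoint C D → C ∪ D = W →
      (∀ a ∈ C, ∀ b ∈ D, s(a, b) ∉ F) → u ∈ C → Disc (W.erase u) (G.filter fun e => v ∉ e) := by
    intro C D _ hDn hCD hW hs huC
    obtain ⟨z, hz, hzu, hzF⟩ := h2
    have hzC : z ∈ C := by
      rw [← hW] at hz
      rcases mem_union.1 hz with h | h
      · exact h
      · exact absurd hzF (hs u huC z h)
    refine ⟨C.erase u, D, ⟨z, mem_erase.2 ⟨hzu, hzC⟩⟩, hDn, disjoint_of_subset_left (erase_subset _ _) hCD, ?_, ?_⟩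
    · rw [← hW]
      ext z
      rw [mem_union, mem_erase, mem_erase, mem_union]
      constructor
      · rintro (⟨h3, h4⟩ | h3)
        · exact ⟨h3, Or.inl h4⟩
        · exact ⟨fun h4 => disjoint_left.1 hCD huC (h4 ▸ h3), Or.inr h3⟩
      · rintro ⟨h3, h4 | h4⟩
        · exact Or.inl ⟨h3, h4⟩
        · exact Or.inr h4
    · intro a ha b hb h3
      obtain ⟨h4, h5⟩ := mem_filter.1 h3
      rw [Sym2.mem_iff, not_or] at h5
      exact hs a (mem_erase.1 ha).2 b hb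
        (h1 a b (mem_erase.1 ha).1 (fun h6 => disjoint_left.1 hCD huC (h6 ▸ hb)) (Ne.symm h5.1) (Ne.symm h5.2) h4)
  obtain ⟨C, D, hC, hDn, hCD, hW, hs⟩ := hD
  have hx' := huW
  rw [← hW] at hx'
  rcases mem_union.1 hx' with h | h
  · exact key C D hC hDn hCD hW hs h
  · exact key D C hDn hC hCD.symm (by rw [union_comm, hW]) (fun a ha b hb h3 => hs b hb a ha (by rwa [Sym2.eq_swap])) h

section

variable {cross : Sym2 V → Sym2 V → Prop} {x y : V} {R : V → V → Prop}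

theorem Tw.t1' (h : Tw cross x y R) {z : V} {e : Sym2 V} (hzx : z ≠ x) (hzy : z ≠ y) (hx : x ∉ e) (hy : y ∉ e) :
    cross s(y, z) e ↔ cross s(x, z) e := by
  induction e with
  | _ w w' =>
    rw [Sym2.mem_iff, not_or] at hx hy
    exact h.t1 z w w' hzx hzy (Ne.symm hx.1) (Ne.symm hy.1) (Ne.symm hx.2) (Ne.symm hy.2)

theorem mem_pair {a : V} {e : Sym2 V} (h : a ∈ e) : ∃ z, e = s(a, z) := by
  obtain ⟨z, rfl⟩ := h
  exact ⟨z, rfl⟩

/-- the contraction: `y` is replaced by `x` -/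
def ctr (x y : V) (W : Finset V) (F : Finset (Sym2 V)) : Finset (Sym2 V) :=
  (F.filter fun e => x ∉ e ∧ y ∉ e) ∪
    (((W.erase x).erase y).filter fun z => s(x, z) ∈ F ∨ s(y, z) ∈ F).image fun z => s(x, z)

theorem mem_ctr {W : Finset V} {F : Finset (Sym2 V)} {e : Sym2 V} :
    e ∈ ctr x y W F ↔ (e ∈ F ∧ x ∉ e ∧ y ∉ e) ∨
      ∃ z, z ∈ W ∧ z ≠ x ∧ z ≠ y ∧ (s(x, z) ∈ F ∨ s(y, z) ∈ F) ∧ s(x, z) = e := by
  unfold ctr
  rw [mem_union, mem_filter, mem_image]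
  constructor
  · rintro (h | ⟨z, h1, h2⟩)
    · exact Or.inl h
    · rw [mem_filter, mem_erase, mem_erase] at h1
      exact Or.inr ⟨z, h1.1.2.2, h1.1.2.1, h1.1.1, h1.2, h2⟩
  · rintro (h | ⟨z, h1, h2, h3, h4, h5⟩)
    · exact Or.inl h
    · refine Or.inr ⟨z, ?_, h5⟩
      rw [mem_filter, mem_erase, mem_erase]
      exact ⟨⟨h3, h2, h1⟩, h4⟩

theorem Tw.ctr_plane (h : Tw cross x y R) {W : Finset V} {F : Finset (Sym2 V)} (hp : Plane cross F) :
    Plane cross (ctr x y W F) := by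
  have key : ∀ z, z ≠ x → z ≠ y → (s(x, z) ∈ F ∨ s(y, z) ∈ F) → ∀ e ∈ F, x ∉ e → y ∉ e → ¬ cross s(x, z) e := by
    intro z hzx hzy hz e he h1 h2
    rcases hz with hz | hz
    · exact hp _ hz _ he
    · rw [← h.t1' hzx hzy h1 h2]
      exact hp _ hz _ he
  intro e he f hf
  rw [mem_ctr] at he hf
  rcases he with ⟨h1, h2, h3⟩ | ⟨z, h1, h2, h3, h4, rfl⟩ <;> rcases hf with ⟨g1, g2, g3⟩ | ⟨w, g1, g2, g3, g4, rfl⟩
  · exact hp _ h1 _ g1
  · exact fun hc => key w g2 g3 g4 e h1 h2 h3 (h.symm _ _ hc)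
  · exact key z h2 h3 h4 f g1 g2 g3
  · exact h.adj _ _ _

theorem Tw.ctr_sub (h : Tw cross x y R) {W : Finset V} {F : Finset (Sym2 V)} (hF : F ⊆ LW W) (hx : x ∈ W) :
    ctr x y W F ⊆ LW (W.erase y) := by
  intro e he
  rw [mem_ctr] at he
  rcases he with ⟨h1, h2, h3⟩ | ⟨z, h1, h2, h3, h4, rfl⟩
  · have h4 := hF h1
    induction e with
    | _ a b =>
      rw [mem_LW] at h4 ⊢
      rw [Sym2.mem_iff, not_or] at h3
      exact ⟨mem_erase.2 ⟨Ne.symm h3.1, h4.1⟩, mem_erase.2 ⟨Ne.symm h3.2, h4.2.1⟩, h4.2.2⟩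
  · rw [mem_LW]
    exact ⟨mem_erase.2 ⟨h.ne, hx⟩, mem_erase.2 ⟨h3, h1⟩, Ne.symm h2⟩

theorem Tw.ctr_n2 (h : Tw cross x y R) {W : Finset V} {F : Finset (Sym2 V)} (hF : F ⊆ LW W) (hx : x ∈ W)
    (hy : y ∈ W) (hxy : s(x, y) ∈ F) (lx : ∃ z, s(x, z) ∈ F ∧ z ≠ y) (ly : ∃ z, s(y, z) ∈ F ∧ z ≠ x)
    (hN : N2 W F) : N2 (W.erase y) (ctr x y W F) := by
  have e1 : ∀ u w, u ≠ x → w ≠ x → s(u, w) ∈ ctr x y W F → s(u, w) ∈ F := by
    intro u w hu hw h1
    rcases mem_ctr.1 h1 with h1 | ⟨z, _, _, _, _, h1⟩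
    · exact h1.1
    · have h2 : x ∈ s(u, w) := by rw [← h1]; exact Sym2.mem_mk_left _ _
      rcases Sym2.mem_iff.1 h2 with h3 | h3
      · exact absurd h3.symm hu
      · exact absurd h3.symm hw
  have e2 : ∀ w, s(x, w) ∈ ctr x y W F → s(x, w) ∈ F ∨ s(y, w) ∈ F := by
    intro w h1
    rcases mem_ctr.1 h1 with h1 | ⟨z, _, _, _, h4, h1⟩
    · exact Or.inl h1.1
    · rw [Sym2.congr_right] at h1
      rw [h1] at h4
      exact h4
  have e3 : ∀ a b, a ≠ x → b ≠ x → a ≠ y → b ≠ y → s(a, b) ∈ ctr x y W F →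
      s(a, b) ∈ F ∧ x ∉ s(a, b) ∧ y ∉ s(a, b) := by
    intro a b h1 h2 h3 h4 h5
    refine ⟨e1 a b h1 h2 h5, ?_, ?_⟩
    · rw [Sym2.mem_iff, not_or]; exact ⟨h1.symm, h2.symm⟩
    · rw [Sym2.mem_iff, not_or]; exact ⟨h3.symm, h4.symm⟩
  rcases hN with hD | ⟨b, hb, hD⟩
  · exact Or.inl (disc_drop hxy hx hy h.ne e1 e2 hD)
  · by_cases hbx : b = x
    · subst hbx
      refine Or.inr ⟨b, mem_erase.2 ⟨h.ne, hx⟩, ?_⟩
      rw [erase_right_comm]
      obtain ⟨z, hz, hzx⟩ := ly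
      have hzW := mem_LW.1 (hF hz)
      refine disc_two (F := F.filter fun e => b ∉ e) (G := ctr b y W F) (mem_erase.2 ⟨h.ne.symm, hy⟩) ?_
        ⟨z, mem_erase.2 ⟨hzx, hzW.2.1⟩, Ne.symm hzW.2.2, ?_⟩ hD
      · intro a c h1 h2 h3 h4 h5
        obtain ⟨g1, g2, _⟩ := e3 a c h3 h4 h1 h2 h5
        exact mem_filter.2 ⟨g1, g2⟩
      · rw [mem_filter, Sym2.mem_iff, not_or]
        exact ⟨hz, h.ne, Ne.symm hzx⟩
    · by_cases hby : b = y
      · subst hby
        refine Or.inr ⟨x, mem_erase.2 ⟨h.ne, hx⟩, ?_⟩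
        obtain ⟨z, hz, hzy⟩ := lx
        have hzW := mem_LW.1 (hF hz)
        have h6 := disc_two (F := F.filter fun e => b ∉ e) (G := (ctr x b W F).filter fun e => x ∉ e) (u := x) (v := b)
          (mem_erase.2 ⟨h.ne, hx⟩) ?_ ⟨z, mem_erase.2 ⟨hzy, hzW.2.1⟩, Ne.symm hzW.2.2, ?_⟩ hD
        · obtain ⟨C, D, hC, hDn, hCD, hW, hs⟩ := h6
          refine ⟨C, D, hC, hDn, hCD, hW, fun u hu w hw h7 => hs u hu w hw (mem_filter.2 ⟨h7, ?_⟩)⟩
          have hu' : u ∈ (W.erase b).erase x := by rw [← hW]; exact mem_union_left _ hu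
          have hw' : w ∈ (W.erase b).erase x := by rw [← hW]; exact mem_union_right _ hw
          rw [mem_erase, mem_erase] at hu' hw'
          rw [Sym2.mem_iff, not_or]
          exact ⟨hu'.2.1.symm, hw'.2.1.symm⟩
        · intro a c h1 h2 h3 h4 h5
          obtain ⟨g1, _, g2⟩ := e3 a c h1 h2 h3 h4 (mem_filter.1 h5).1
          exact mem_filter.2 ⟨g1, g2⟩
        · rw [mem_filter, Sym2.mem_iff, not_or]
          exact ⟨hz, h.ne.symm, Ne.symm hzy⟩
      · refine Or.inr ⟨b, mem_erase.2 ⟨hby, hb⟩, ?_⟩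
        rw [erase_right_comm]
        refine disc_drop (F := F.filter fun e => b ∉ e) ?_ (mem_erase.2 ⟨Ne.symm hbx, hx⟩)
          (mem_erase.2 ⟨Ne.symm hby, hy⟩) h.ne ?_ ?_ hD
        · rw [mem_filter, Sym2.mem_iff, not_or]
          exact ⟨hxy, hbx, hby⟩
        · intro u w hu hw h1
          obtain ⟨h1, h2⟩ := mem_filter.1 h1
          exact mem_filter.2 ⟨e1 u w hu hw h1, h2⟩
        · intro w h1
          obtain ⟨h1, h2⟩ := mem_filter.1 h1
          rw [Sym2.mem_iff, not_or] at h2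
          rcases e2 w h1 with h3 | h3
          · refine Or.inl (mem_filter.2 ⟨h3, ?_⟩)
            rw [Sym2.mem_iff, not_or]
            exact h2
          · refine Or.inr (mem_filter.2 ⟨h3, ?_⟩)
            rw [Sym2.mem_iff, not_or]
            exact ⟨hby, h2.2⟩

end

end H50TW
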