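import Pool.Agent.Lib.H50TW.A2

/-!
# H50TW, file A3: twins can be deleted, the theorems `Tw.acy`, `Tw.acy1`
-/

set_option autoImplicit false
set_option linter.unusedSectionVars false

namespace H50TW

open Finset H98P H98Z H98M

variable {V : Type*} [Fintype V] [DecidableEq V]
variable {cross : Sym2 V → Sym2 V → Prop} {x y : V} {R : V → V → Prop}

/-- the vertices `z` for which both `xz` and `yz` are candidates -/
noncomputable def zz (cross : Sym2 V → Sym2 V → Prop) (x y : V) (W : Finset V) (F : Finset (Sym2 V)) : Finset V :=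
  @Finset.filter V (fun z => s(x, z) ∉ F ∧ s(y, z) ∉ F ∧ ∀ f ∈ F, x ∉ f → y ∉ f → ¬ cross s(x, z) f)
    (Classical.decPred _) ((W.erase x).erase y)

theorem mem_zz {W : Finset V} {F : Finset (Sym2 V)} {z : V} : z ∈ zz cross x y W F ↔
    z ∈ W ∧ z ≠ x ∧ z ≠ y ∧ s(x, z) ∉ F ∧ s(y, z) ∉ F ∧ ∀ f ∈ F, x ∉ f → y ∉ f → ¬ cross s(x, z) f := by
  unfold zz
  rw [@Finset.mem_filter V _ (Classical.decPred _), mem_erase, mem_erase]
  tauto

/-- the other edges -/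
noncomputable def nn (cross : Sym2 V → Sym2 V → Prop) (x y : V) (W : Finset V) (F : Finset (Sym2 V)) :
    Finset (Sym2 V) := (Un cross W F).filter fun e => x ∉ e ∧ y ∉ e

theorem not_mem_of {a b z : V} (h1 : z ≠ a) (h2 : z ≠ b) : z ∉ s(a, b) := by
  rw [Sym2.mem_iff, not_or]
  exact ⟨h1, h2⟩

theorem Tw.dbl (h : Tw cross x y R) (W : Finset V) (F : Finset (Sym2 V)) :
    Dbl cross (nn cross x y W F) (zz cross x y W F) (fun z => s(x, z)) (fun z => s(y, z)) R where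
  symm := h.symm
  pN z _ h1 := (mem_filter.1 h1).2.1 (Sym2.mem_mk_left _ _)
  qN z _ h1 := (mem_filter.1 h1).2.2 (Sym2.mem_mk_left _ _)
  pq z hz w hw h1 := by
    have h2 : y ∈ s(x, z) := by
      rw [show s(x, z) = s(y, w) from h1]
      exact Sym2.mem_mk_left _ _
    rcases Sym2.mem_iff.1 h2 with h3 | h3
    · exact h.ne h3.symm
    · exact (mem_zz.1 hz).2.2.1 h3.symm
  pinj z _ w _ h1 := Sym2.congr_right.1 h1
  qinj z _ w _ h1 := Sym2.congr_right.1 h1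
  pp z _ w _ := h.adj _ _ _
  qq z _ w _ := h.adj _ _ _
  same z hz e he := by
    obtain ⟨_, h1, h2, _⟩ := mem_zz.1 hz
    obtain ⟨_, h3, h4⟩ := mem_filter.1 he
    exact (h.t1' h1 h2 h3 h4).symm
  rel d hd b hb := by
    obtain ⟨_, h1, h2, _⟩ := mem_zz.1 hd
    obtain ⟨_, h3, h4, _⟩ := mem_zz.1 hb
    exact h.t2 d b h1 h2 h3 h4
  irr := h.irr
  trans := h.trans

/-- the contracted complex -/
theorem Tw.un_ctr (h : Tw cross x y R) {W : Finset V} {F : Finset (Sym2 V)} (hF : F ⊆ LW W) (hx : x ∈ W) :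
    Un cross (W.erase y) (ctr x y W F) =
      cpx (nn cross x y W F) (fun z => s(x, z)) (fun z => s(y, z)) (zz cross x y W F) ∅ := by
  ext e
  rw [mem_cpx]
  constructor
  · intro he
    obtain ⟨h1, h2, h3⟩ := mem_un.1 he
    have hye : y ∉ e := by
      intro h4
      obtain ⟨z, rfl⟩ := mem_pair h4
      exact (mem_erase.1 (mem_LW.1 h1).1).1 rfl
    have hW : e ∈ LW W := LW_mono (erase_subset _ _) h1
    by_cases hxe : x ∈ e
    · obtain ⟨z, rfl⟩ := mem_pair hxe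
      refine Or.inr (Or.inl ⟨z, mem_zz.2 ?_, rfl⟩)
      have h4 := mem_LW.1 h1
      have hzx : z ≠ x := Ne.symm h4.2.2
      have hzy : z ≠ y := (mem_erase.1 h4.2.1).1
      have hzW : z ∈ W := (mem_erase.1 h4.2.1).2
      refine ⟨hzW, hzx, hzy, fun h5 => ?_, fun h5 => ?_, fun f hf h5 h6 => ?_⟩
      · exact h3 (mem_ctr.2 (Or.inr ⟨z, hzW, hzx, hzy, Or.inl h5, rfl⟩))
      · exact h3 (mem_ctr.2 (Or.inr ⟨z, hzW, hzx, hzy, Or.inr h5, rfl⟩))
      · exact h2 f (mem_ctr.2 (Or.inl ⟨hf, h5, h6⟩))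
    · refine Or.inl (mem_filter.2 ⟨mem_un.2 ⟨hW, fun f hf => ?_, fun h4 => ?_⟩, hxe, hye⟩)
      · by_cases hxf : x ∈ f
        · obtain ⟨z, rfl⟩ := mem_pair hxf
          by_cases hzy : z = y
          · rw [hzy]
            exact fun h4 => h.t0 e (h.symm _ _ h4)
          · have h4 := mem_LW.1 (hF hf)
            exact h2 _ (mem_ctr.2 (Or.inr ⟨z, h4.2.1, Ne.symm h4.2.2, hzy, Or.inl hf, rfl⟩))
        · by_cases hyf : y ∈ f
          · obtain ⟨z, rfl⟩ := mem_pair hyf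
            have h4 := mem_LW.1 (hF hf)
            have hzx : z ≠ x := fun h5 => hxf (h5 ▸ Sym2.mem_mk_right _ _)
            have h5 := h2 _ (mem_ctr.2 (Or.inr ⟨z, h4.2.1, hzx, Ne.symm h4.2.2, Or.inr hf, rfl⟩))
            intro h6
            exact h5 (h.symm _ _ ((h.t1' hzx (Ne.symm h4.2.2) hxe hye).1 (h.symm _ _ h6)))
          · exact h2 f (mem_ctr.2 (Or.inl ⟨hf, hxf, hyf⟩))
      · exact h3 (mem_ctr.2 (Or.inl ⟨h4, hxe, hye⟩))
  · rintro (he | ⟨z, hz, rfl⟩ | ⟨z, hz, _⟩)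
    · obtain ⟨h1, hxe, hye⟩ := mem_filter.1 he
      obtain ⟨h2, h3, h4⟩ := mem_un.1 h1
      refine mem_un.2 ⟨?_, fun f hf => ?_, fun h5 => ?_⟩
      · induction e with
        | _ a b =>
          rw [mem_LW] at h2 ⊢
          rw [Sym2.mem_iff, not_or] at hye
          exact ⟨mem_erase.2 ⟨Ne.symm hye.1, h2.1⟩, mem_erase.2 ⟨Ne.symm hye.2, h2.2.1⟩, h2.2.2⟩
      · rcases mem_ctr.1 hf with ⟨h5, _, _⟩ | ⟨w, h5, h6, h7, h8, rfl⟩
        · exact h3 f h5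
        · rcases h8 with h8 | h8
          · exact h3 _ h8
          · intro h9
            exact h3 _ h8 (h.symm _ _ ((h.t1' h6 h7 hxe hye).2 (h.symm _ _ h9)))
      · rcases mem_ctr.1 h5 with ⟨h5, _, _⟩ | ⟨w, _, _, _, _, rfl⟩
        · exact h4 h5
        · exact hxe (Sym2.mem_mk_left _ _)
    · obtain ⟨h1, h2, h3, h4, h5, h6⟩ := mem_zz.1 hz
      refine mem_un.2 ⟨mem_LW.2 ⟨mem_erase.2 ⟨h.ne, hx⟩, mem_erase.2 ⟨h3, h1⟩, Ne.symm h2⟩, fun f hf => ?_, fun h7 => ?_⟩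
      · rcases mem_ctr.1 hf with ⟨h7, h8, h9⟩ | ⟨w, _, _, _, _, rfl⟩
        · exact h6 f h7 h8 h9
        · exact h.adj _ _ _
      · rcases mem_ctr.1 h7 with ⟨_, h8, _⟩ | ⟨w, _, _, _, h8, h9⟩
        · exact h8 (Sym2.mem_mk_left _ _)
        · rw [Sym2.congr_right] at h9
          subst h9
          rcases h8 with h8 | h8
          · exact h4 h8
          · exact h5 h8
    · exact absurd hz (notMem_empty z)

/-- exchange `x` and `y` in the edges `xb`, `yb`, `b ∈ B` -/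
def fl (x y : V) (B : Finset V) (e : Sym2 V) : Sym2 V :=
  if ∃ z ∈ B, e = s(x, z) ∨ e = s(y, z) then Sym2.map (Equiv.swap x y) e else e

theorem fl_invol {B : Finset V} (hB : ∀ z ∈ B, z ≠ x ∧ z ≠ y) : Function.Involutive (fl x y B) := by
  have hs1 : ∀ z ∈ B, Sym2.map (Equiv.swap x y) s(x, z) = s(y, z) := by
    intro z hz
    rw [Sym2.map_mk, Equiv.swap_apply_left, Equiv.swap_apply_of_ne_of_ne (hB z hz).1 (hB z hz).2]
  have hs2 : ∀ z ∈ B, Sym2.map (Equiv.swap x y) s(y, z) = s(x, z) := by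
    intro z hz
    rw [Sym2.map_mk, Equiv.swap_apply_right, Equiv.swap_apply_of_ne_of_ne (hB z hz).1 (hB z hz).2]
  intro e
  by_cases h : ∃ z ∈ B, e = s(x, z) ∨ e = s(y, z)
  · obtain ⟨z, hz, he⟩ := h
    rcases he with rfl | rfl
    · have h1 : fl x y B s(x, z) = s(y, z) := by
        unfold fl
        rw [if_pos ⟨z, hz, Or.inl rfl⟩, hs1 z hz]
      rw [h1]
      unfold fl
      rw [if_pos ⟨z, hz, Or.inr rfl⟩, hs2 z hz]
    · have h1 : fl x y B s(y, z) = s(x, z) := by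
        unfold fl
        rw [if_pos ⟨z, hz, Or.inr rfl⟩, hs2 z hz]
      rw [h1]
      unfold fl
      rw [if_pos ⟨z, hz, Or.inl rfl⟩, hs1 z hz]
  · have h1 : fl x y B e = e := by
      unfold fl
      rw [if_neg h]
    rw [h1, h1]

theorem fl_of {B : Finset V} {e : Sym2 V} (h : ∀ z ∈ B, e ≠ s(x, z) ∧ e ≠ s(y, z)) : fl x y B e = e := by
  unfold fl
  rw [if_neg]
  rintro ⟨z, hz, h1 | h1⟩
  · exact (h z hz).1 h1
  · exact (h z hz).2 h1

theorem fl_q {B : Finset V} (hB : ∀ z ∈ B, z ≠ x ∧ z ≠ y) {z : V} (hz : z ∈ B) :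
    fl x y B s(y, z) = s(x, z) := by
  unfold fl
  rw [if_pos ⟨z, hz, Or.inr rfl⟩, Sym2.map_mk, Equiv.swap_apply_right,
    Equiv.swap_apply_of_ne_of_ne (hB z hz).1 (hB z hz).2]

/-- single copies -/
theorem Tw.single (h : Tw cross x y R) {W : Finset V} {F : Finset (Sym2 V)} {A : Finset V}
    (hA : A ⊆ zz cross x y W F) (hR : ∀ a ∈ A, ∀ b ∈ zz cross x y W F \ A, ¬ R a b)
    (hc : Acy cross (cpx (nn cross x y W F) (fun z => s(x, z)) (fun z => s(y, z)) (zz cross x y W F) ∅)) :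
    Acy cross (cpx (nn cross x y W F) (fun z => s(x, z)) (fun z => s(y, z)) A (zz cross x y W F \ A)) := by
  set Z := zz cross x y W F with hZ
  set N := nn cross x y W F with hN
  have hB : ∀ z ∈ Z \ A, z ≠ x ∧ z ≠ y := by
    intro z hz
    obtain ⟨_, h1, h2, _⟩ := mem_zz.1 (mem_sdiff.1 hz).1
    exact ⟨h1, h2⟩
  let f : Sym2 V ↪ Sym2 V := ⟨fl x y (Z \ A), (fl_invol hB).injective⟩
  have fN : ∀ e ∈ N, f e = e := by
    intro e he
    obtain ⟨_, h1, h2⟩ := mem_filter.1 he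
    exact fl_of fun z _ => ⟨fun h3 => h1 (h3 ▸ Sym2.mem_mk_left _ _), fun h3 => h2 (h3 ▸ Sym2.mem_mk_left _ _)⟩
  have fA : ∀ a ∈ A, f s(x, a) = s(x, a) := by
    intro a ha
    refine fl_of fun z hz => ⟨fun h3 => ?_, fun h3 => ?_⟩
    · rw [Sym2.congr_right] at h3
      exact (mem_sdiff.1 hz).2 (h3 ▸ ha)
    · have h4 : y ∈ s(x, a) := by rw [h3]; exact Sym2.mem_mk_left _ _
      rcases Sym2.mem_iff.1 h4 with h5 | h5
      · exact h.ne h5.symm
      · exact (mem_zz.1 (hA ha)).2.2.1 h5.symm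
  have fB : ∀ b ∈ Z \ A, f s(y, b) = s(x, b) := fun b hb => fl_q hB hb
  have hmap : (cpx N (fun z => s(x, z)) (fun z => s(y, z)) A (Z \ A)).map f =
      cpx N (fun z => s(x, z)) (fun z => s(y, z)) Z ∅ := by
    ext e
    rw [mem_map, mem_cpx]
    constructor
    · rintro ⟨e', he', rfl⟩
      rcases mem_cpx.1 he' with h1 | ⟨z, h1, rfl⟩ | ⟨z, h1, rfl⟩
      · exact Or.inl (by rw [fN _ h1]; exact h1)
      · exact Or.inr (Or.inl ⟨z, hA h1, (fA z h1).symm⟩)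
      · exact Or.inr (Or.inl ⟨z, (mem_sdiff.1 h1).1, (fB z h1).symm⟩)
    · rintro (h1 | ⟨z, h1, rfl⟩ | ⟨z, h1, _⟩)
      · exact ⟨e, mem_cpx.2 (Or.inl h1), fN _ h1⟩
      · by_cases hz : z ∈ A
        · exact ⟨s(x, z), mem_cpx.2 (Or.inr (Or.inl ⟨z, hz, rfl⟩)), fA z hz⟩
        · exact ⟨s(y, z), mem_cpx.2 (Or.inr (Or.inr ⟨z, mem_sdiff.2 ⟨h1, hz⟩, rfl⟩)), fB z (mem_sdiff.2 ⟨h1, hz⟩)⟩
      · exact absurd h1 (notMem_empty z)
  refine acy_map f (by rw [hmap]; exact hc) ?_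
  intro e he e' he'
  have hd := h.dbl W F
  rcases mem_cpx.1 he with h1 | ⟨z, h1, rfl⟩ | ⟨z, h1, rfl⟩ <;>
    rcases mem_cpx.1 he' with g1 | ⟨w, g1, rfl⟩ | ⟨w, g1, rfl⟩
  · rw [fN _ h1, fN _ g1]
  · rw [fN _ h1, fA _ g1]
  · rw [fN _ h1, fB _ g1]
    have := hd.same w (mem_sdiff.1 g1).1 e h1
    constructor
    · exact fun h2 => h.symm _ _ (this.1 (h.symm _ _ h2))
    · exact fun h2 => h.symm _ _ (this.2 (h.symm _ _ h2))
  · rw [fA _ h1, fN _ g1]
  · rw [fA _ h1, fA _ g1]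
  · rw [fA _ h1, fB _ g1]
    constructor
    · exact fun h2 => absurd h2 (h.adj _ _ _)
    · exact fun h2 => absurd ((hd.rel z (hA h1) w (mem_sdiff.1 g1).1).1 h2) (hR z h1 w g1)
  · rw [fB _ h1, fN _ g1]
    exact hd.same z (mem_sdiff.1 h1).1 e' g1
  · rw [fB _ h1, fA _ g1]
    constructor
    · exact fun h2 => absurd h2 (h.adj _ _ _)
    · exact fun h2 => absurd ((hd.rel w (hA g1) z (mem_sdiff.1 h1).1).1 (h.symm _ _ h2)) (hR w g1 z h1)
  · rw [fB _ h1, fB _ g1]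
    constructor
    · exact fun h2 => absurd h2 (h.adj _ _ _)
    · exact fun h2 => absurd h2 (h.adj _ _ _)

end H50TW
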