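import Pool.Agent.Lib.H50TW.A3

/-!
# H50TW, file A4: the theorems `Tw.acy`, `Tw.acy1`
-/

set_option autoImplicit false
set_option linter.unusedSectionVars false

namespace H50TW

open Finset H98P H98Z H98M

variable {V : Type*} [Fintype V] [DecidableEq V]
variable {cross : Sym2 V → Sym2 V → Prop} {x y : V} {R : V → V → Prop}

/-- the second copies of edges of `F` -/
noncomputable def ex (cross : Sym2 V → Sym2 V → Prop) (x y : V) (W : Finset V) (F : Finset (Sym2 V)) :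
    Finset (Sym2 V) :=
  @Finset.filter (Sym2 V) (fun e => (∃ z, z ≠ x ∧ z ≠ y ∧ s(x, z) ∈ F ∧ e = s(y, z)) ∨
    ∃ z, z ≠ x ∧ z ≠ y ∧ s(y, z) ∈ F ∧ e = s(x, z)) (Classical.decPred _) (Un cross W F)

theorem mem_ex {W : Finset V} {F : Finset (Sym2 V)} {e : Sym2 V} : e ∈ ex cross x y W F ↔ e ∈ Un cross W F ∧
    ((∃ z, z ≠ x ∧ z ≠ y ∧ s(x, z) ∈ F ∧ e = s(y, z)) ∨ ∃ z, z ≠ x ∧ z ≠ y ∧ s(y, z) ∈ F ∧ e = s(x, z)) :=
  @Finset.mem_filter (Sym2 V) _ (Classical.decPred _) _ _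

/-- the vertices with an `x`-copy -/
noncomputable def px (R : V → V → Prop) (x y : V) (Z : Finset V) (G : Finset (Sym2 V)) : Finset V :=
  @Finset.filter V (fun z => ∀ b, b ≠ x → b ≠ y → s(y, b) ∈ G → ¬ R z b) (Classical.decPred _) Z

/-- the vertices with a `y`-copy -/
noncomputable def qx (R : V → V → Prop) (x y : V) (Z : Finset V) (G : Finset (Sym2 V)) : Finset V :=
  @Finset.filter V (fun z => ∀ b, b ≠ x → b ≠ y → s(x, b) ∈ G → ¬ R b z) (Classical.decPred _) Z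

theorem mem_px {Z : Finset V} {G : Finset (Sym2 V)} {z : V} : z ∈ px R x y Z G ↔
    z ∈ Z ∧ ∀ b, b ≠ x → b ≠ y → s(y, b) ∈ G → ¬ R z b := @Finset.mem_filter V _ (Classical.decPred _) _ _

theorem mem_qx {Z : Finset V} {G : Finset (Sym2 V)} {z : V} : z ∈ qx R x y Z G ↔
    z ∈ Z ∧ ∀ b, b ≠ x → b ≠ y → s(x, b) ∈ G → ¬ R b z := @Finset.mem_filter V _ (Classical.decPred _) _ _

theorem Tw.miss_eq (h : Tw cross x y R) {W : Finset V} {F Y : Finset (Sym2 V)} (hF : F ⊆ LW W) (hx : x ∈ W)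
    (hy : y ∈ W) (hxy : s(x, y) ∈ F) (hY : Y ⊆ ex cross x y W F) :
    Miss cross (Un cross W F \ ex cross x y W F) Y =
      cpx (nn cross x y W F) (fun z => s(x, z)) (fun z => s(y, z))
        (px R x y (zz cross x y W F) (F ∪ Y)) (qx R x y (zz cross x y W F) (F ∪ Y)) := by
  have hyx : s(y, x) ∈ F := by rwa [Sym2.eq_swap]
  ext e
  rw [mem_miss, mem_sdiff, mem_cpx]
  constructor
  · rintro ⟨⟨h1, h2⟩, h3⟩
    obtain ⟨h4, h5, h6⟩ := mem_un.1 h1
    by_cases hxe : x ∈ e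
    · obtain ⟨z, rfl⟩ := mem_pair hxe
      have h7 := mem_LW.1 h4
      have hzx : z ≠ x := Ne.symm h7.2.2
      have hzy : z ≠ y := fun h8 => h6 (h8 ▸ hxy)
      refine Or.inr (Or.inl ⟨z, mem_px.2 ⟨mem_zz.2 ⟨h7.2.1, hzx, hzy, h6, fun h8 => ?_, fun f hf _ _ => h5 f hf⟩,
        fun b hbx hby hb hR => ?_⟩, rfl⟩)
      · exact h2 (mem_ex.2 ⟨h1, Or.inr ⟨z, hzx, hzy, h8, rfl⟩⟩)
      · have h8 := (h.t2 z b hzx hzy hbx hby).2 hR
        rcases mem_union.1 hb with h9 | h9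
        · exact h5 _ h9 h8
        · exact h3 _ h9 h8
    · by_cases hye : y ∈ e
      · obtain ⟨z, rfl⟩ := mem_pair hye
        have h7 := mem_LW.1 h4
        have hzy : z ≠ y := Ne.symm h7.2.2
        have hzx : z ≠ x := fun h8 => h6 (h8 ▸ hyx)
        refine Or.inr (Or.inr ⟨z, mem_qx.2 ⟨mem_zz.2 ⟨h7.2.1, hzx, hzy, fun h8 => ?_, h6, fun f hf g1 g2 => ?_⟩,
          fun b hbx hby hb hR => ?_⟩, rfl⟩)
        · exact h2 (mem_ex.2 ⟨h1, Or.inl ⟨z, hzx, hzy, h8, rfl⟩⟩)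
        · exact fun h8 => h5 f hf ((h.t1' hzx hzy g1 g2).2 h8)
        · have h8 := h.symm _ _ ((h.t2 b z hbx hby hzx hzy).2 hR)
          rcases mem_union.1 hb with h9 | h9
          · exact h5 _ h9 h8
          · exact h3 _ h9 h8
      · exact Or.inl (mem_filter.2 ⟨h1, hxe, hye⟩)
  · rintro (he | ⟨z, hz, rfl⟩ | ⟨z, hz, rfl⟩)
    · obtain ⟨h1, hxe, hye⟩ := mem_filter.1 he
      refine ⟨⟨h1, fun h2 => ?_⟩, fun f hf h3 => ?_⟩
      · rcases (mem_ex.1 h2).2 with ⟨z, _, _, _, h3⟩ | ⟨z, _, _, _, h3⟩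
        · exact hye (h3 ▸ Sym2.mem_mk_left _ _)
        · exact hxe (h3 ▸ Sym2.mem_mk_left _ _)
      · obtain ⟨_, h4, _⟩ := mem_un.1 h1
        rcases (mem_ex.1 (hY hf)).2 with ⟨z, h5, h6, h7, rfl⟩ | ⟨z, h5, h6, h7, rfl⟩
        · exact h4 _ h7 (h.symm _ _ ((h.t1' h5 h6 hxe hye).1 (h.symm _ _ h3)))
        · exact h4 _ h7 (h.symm _ _ ((h.t1' h5 h6 hxe hye).2 (h.symm _ _ h3)))
    · obtain ⟨h1, h2⟩ := mem_px.1 hz
      obtain ⟨g1, g2, g3, g4, g5, g6⟩ := mem_zz.1 h1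
      refine ⟨⟨mem_un.2 ⟨mem_LW.2 ⟨hx, g1, Ne.symm g2⟩, fun f hf => ?_, g4⟩, fun h3 => ?_⟩, fun f hf => ?_⟩
      · by_cases hxf : x ∈ f
        · obtain ⟨w, rfl⟩ := mem_pair hxf
          exact h.adj _ _ _
        · by_cases hyf : y ∈ f
          · obtain ⟨w, rfl⟩ := mem_pair hyf
            have h3 := mem_LW.1 (hF hf)
            have hwx : w ≠ x := fun h5 => hxf (h5 ▸ Sym2.mem_mk_right _ _)
            rw [h.t2 z w g2 g3 hwx (Ne.symm h3.2.2)]
            exact h2 w hwx (Ne.symm h3.2.2) (mem_union_left _ hf)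
          · exact g6 f hf hxf hyf
      · rcases (mem_ex.1 h3).2 with ⟨w, h4, h5, h6, h7⟩ | ⟨w, h4, h5, h6, h7⟩
        · have h8 : y ∈ s(x, z) := by rw [h7]; exact Sym2.mem_mk_left _ _
          rcases Sym2.mem_iff.1 h8 with h9 | h9
          · exact h.ne h9.symm
          · exact g3 h9.symm
        · rw [Sym2.congr_right] at h7
          exact g5 (h7 ▸ h6)
      · rcases (mem_ex.1 (hY hf)).2 with ⟨w, h4, h5, h6, rfl⟩ | ⟨w, h4, h5, h6, rfl⟩
        · rw [h.t2 z w g2 g3 h4 h5]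
          exact h2 w h4 h5 (mem_union_right _ hf)
        · exact h.adj _ _ _
    · obtain ⟨h1, h2⟩ := mem_qx.1 hz
      obtain ⟨g1, g2, g3, g4, g5, g6⟩ := mem_zz.1 h1
      refine ⟨⟨mem_un.2 ⟨mem_LW.2 ⟨hy, g1, Ne.symm g3⟩, fun f hf => ?_, g5⟩, fun h3 => ?_⟩, fun f hf => ?_⟩
      · by_cases hyf : y ∈ f
        · obtain ⟨w, rfl⟩ := mem_pair hyf
          exact h.adj _ _ _
        · by_cases hxf : x ∈ f
          · obtain ⟨w, rfl⟩ := mem_pair hxf
            have h3 := mem_LW.1 (hF hf)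
            have hwy : w ≠ y := fun h5 => hyf (h5 ▸ Sym2.mem_mk_right _ _)
            intro h4
            exact h2 w (Ne.symm h3.2.2) hwy (mem_union_left _ hf)
              ((h.t2 w z (Ne.symm h3.2.2) hwy g2 g3).1 (h.symm _ _ h4))
          · exact fun h4 => g6 f hf hxf hyf ((h.t1' g2 g3 hxf hyf).1 h4)
      · rcases (mem_ex.1 h3).2 with ⟨w, h4, h5, h6, h7⟩ | ⟨w, h4, h5, h6, h7⟩
        · rw [Sym2.congr_right] at h7
          exact g4 (h7 ▸ h6)
        · have h8 : y ∈ s(x, w) := by rw [← h7]; exact Sym2.mem_mk_left _ _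
          rcases Sym2.mem_iff.1 h8 with h9 | h9
          · exact h.ne h9.symm
          · exact h5 h9.symm
      · rcases (mem_ex.1 (hY hf)).2 with ⟨w, h4, h5, h6, rfl⟩ | ⟨w, h4, h5, h6, rfl⟩
        · exact h.adj _ _ _
        · intro h7
          exact h2 w h4 h5 (mem_union_right _ hf) ((h.t2 w z h4 h5 g2 g3).1 (h.symm _ _ h7))

/-- DELETE A TWIN: both twins in `W` -/
theorem Tw.acy (h : Tw cross x y R) {W : Finset V} (hx : x ∈ W) (hy : y ∈ W) (vx : V2 cross W x) (vy : V2 cross W y)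
    (ih : ∀ F ⊆ LW (W.erase y), Plane cross F → N2 (W.erase y) F → Acy cross (Un cross (W.erase y) F)) :
    ∀ F ⊆ LW W, Plane cross F → N2 W F → Acy cross (Un cross W F) := by
  intro F hF hp hN
  by_cases hxy : s(x, y) ∈ F
  swap
  · refine acy_cone h.symm (e := s(x, y)) (mem_un.2 ⟨mem_LW.2 ⟨hx, hy, h.ne⟩, fun f _ => h.t0 f, hxy⟩) ?_
    exact fun f _ => h.t0 f
  by_cases lx : ∃ z, s(x, z) ∈ F ∧ z ≠ y
  swap
  · exact acy_leaf h.symm h.adj hF hp hx vx (y := y) (fun z hz => by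
      by_contra h1
      exact lx ⟨z, hz, h1⟩)
  by_cases ly : ∃ z, s(y, z) ∈ F ∧ z ≠ x
  swap
  · exact acy_leaf h.symm h.adj hF hp hy vy (y := x) (fun z hz => by
      by_contra h1
      exact ly ⟨z, hz, h1⟩)
  have hc : Acy cross (cpx (nn cross x y W F) (fun z => s(x, z)) (fun z => s(y, z)) (zz cross x y W F) ∅) := by
    rw [← h.un_ctr hF hx]
    exact ih _ (h.ctr_sub hF hx) (h.ctr_plane hp) (h.ctr_n2 hF hx hy hxy lx ly hN)
  have key : ∀ Y ⊆ ex cross x y W F, Plane cross Y →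
      Acy cross (Miss cross (Un cross W F \ ex cross x y W F) Y) := by
    intro Y hY hYp
    rw [h.miss_eq hF hx hy hxy hY]
    have hpl : Plane cross (F ∪ Y) := plane_un h.symm hp hYp fun e he f hf h1 =>
      (mem_un.1 (mem_ex.1 (hY hf)).1).2.1 e he (h.symm _ _ h1)
    refine (h.dbl W F).acy (fun A hA hR => h.single hA hR hc) _ _ _ rfl ?_ ?_
    · ext z
      rw [mem_union]
      constructor
      · rintro (h1 | h1)
        · exact (mem_px.1 h1).1
        · exact (mem_qx.1 h1).1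
      · intro hz
        by_contra hcon
        rw [not_or] at hcon
        obtain ⟨h1, h2⟩ := hcon
        rw [mem_px] at h1
        rw [mem_qx] at h2
        apply h1
        refine ⟨hz, fun b hbx hby hb hR => h2 ⟨hz, fun d hdx hdy hd hR' => ?_⟩⟩
        exact hpl _ hd _ hb ((h.t2 d b hdx hdy hbx hby).2 (h.trans _ _ _ hR' hR))
    · intro a ha haQ b hb hbP hab
      apply haQ
      refine mem_qx.2 ⟨ha, fun d hdx hdy hd hR' => hbP (mem_px.2 ⟨hb, fun c hcx hcy hc' hR => ?_⟩)⟩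
      exact hpl _ hd _ hc' ((h.t2 d c hdx hdy hcx hcy).2 (h.trans _ _ _ hR' (h.trans _ _ _ hab hR)))
  have hU : (Un cross W F \ ex cross x y W F) ∪ ex cross x y W F = Un cross W F := by
    rw [sdiff_union_self_eq_union]
    exact union_eq_left.2 fun e he => (mem_ex.1 he).1
  rw [← hU]
  refine split_mpr h.symm sdiff_disjoint (fun Y hY _ hYp => key Y hY hYp) ?_
  have h1 := key ∅ (empty_subset _) (fun e he => absurd he (notMem_empty e))
  rwa [miss_empty] at h1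

end H50TW
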